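import Pool.Agent.H741.RS.Stm

/-!
# Project RS (MP_9c6456_an), S_GLUE: linear fractional maps equal on the ball
-/

set_option autoImplicit false
open scoped ComplexConjugate

namespace Pool.Agent.H789.RS.GLUE

open Pool.Agent.H741.RS

/-- A linear map `B` of `ℂ × ℂⁿ` such that every `(1, z)`, `z` in the ball, is an eigenvector, is scalar. -/
theorem scalar_of {n : ℕ} (B : (ℂ × V n) →ₗ[ℂ] (ℂ × V n))
    (h : ∀ z ∈ Bn n, ∃ l : ℂ, B (1, z) = (l, l • z)) : ∃ c : ℂ, ∀ X, B X = c • X := by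
  classical
  choose! l hl using h
  have h0mem : (0 : V n) ∈ Bn n := by simp [Bn]
  have h0 : B (1, 0) = (l 0, 0) := by
    have := hl 0 h0mem
    rw [this]; simp
  have hB0 : ∀ z ∈ Bn n, B (0, z) = (l z - l 0, l z • z) := by
    intro z hz
    have e : ((0 : ℂ), z) = ((1 : ℂ), z) - ((1 : ℂ), (0 : V n)) := by
      ext <;> simp
    rw [e, map_sub, hl z hz, h0]
    ext <;> simp
  have hlc : ∀ z ∈ Bn n, z ≠ 0 → l z = l 0 := by
    intro z hz hz0
    have hhalf : ((1 / 2 : ℂ) • z) ∈ Bn n := by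
      show ‖(1 / 2 : ℂ) • z‖ < 1
      have hz' : ‖z‖ < 1 := hz
      rw [norm_smul]
      have : ‖(1 / 2 : ℂ)‖ = 1 / 2 := by norm_num
      rw [this]
      have := norm_nonneg z
      linarith
    have e1 : B (0, (1 / 2 : ℂ) • z) = (1 / 2 : ℂ) • B (0, z) := by
      rw [← map_smul]
      congr 1
      ext <;> simp
    rw [hB0 _ hhalf, hB0 z hz] at e1
    have e2 := congrArg Prod.fst e1
    have e3 := congrArg Prod.snd e1
    simp only [Prod.smul_mk, smul_eq_mul] at e2 e3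
    have e4 : (l ((1 / 2 : ℂ) • z) * (1 / 2)) • z = ((1 / 2) * l z) • z := by
      rw [mul_smul, mul_smul]; exact e3
    have e5 := smul_left_injective ℂ hz0 e4
    linear_combination (-4 : ℂ) * e5 + 2 * e2
  have hB1 : ∀ z ∈ Bn n, B (0, z) = (0, l 0 • z) := by
    intro z hz
    by_cases hz0 : z = 0
    · subst hz0
      have : ((0 : ℂ), (0 : V n)) = 0 := rfl
      rw [this, map_zero, smul_zero]
      rfl
    · rw [hB0 z hz, hlc z hz hz0, sub_self]
  have hB2 : ∀ z : V n, B (0, z) = (0, l 0 • z) := by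
    intro z
    set t : ℂ := (((‖z‖ + 1)⁻¹ : ℝ) : ℂ) with ht
    have hp : 0 < ‖z‖ + 1 := by positivity
    have htne : t ≠ 0 := by
      rw [ht]; exact_mod_cast (inv_pos.2 hp).ne'
    have hmem : t • z ∈ Bn n := by
      show ‖t • z‖ < 1
      rw [norm_smul, ht, Complex.norm_real, Real.norm_eq_abs, abs_of_pos (inv_pos.2 hp),
        inv_mul_lt_iff₀ hp]
      linarith
    have e1 := hB1 _ hmem
    have e2 : B (0, t • z) = t • B (0, z) := by
      rw [← map_smul]
      congr 1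
      ext <;> simp
    rw [e2] at e1
    have e3 : B (0, z) = t⁻¹ • ((0 : ℂ), l 0 • t • z) := by
      rw [← e1, smul_smul, inv_mul_cancel₀ htne, one_smul]
    rw [e3, Prod.smul_mk, smul_zero, smul_comm (l 0) t z, smul_smul, inv_mul_cancel₀ htne, one_smul]
  refine ⟨l 0, ?_⟩
  rintro ⟨a, x⟩
  have e : ((a : ℂ), x) = a • ((1 : ℂ), (0 : V n)) + ((0 : ℂ), x) := by
    ext <;> simp
  rw [e, map_add, map_smul, h0, hB2]
  ext <;> simp [mul_comm]

theorem t_GLUE (h1 : S_PRES) : S_GLUE := by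
  intro n A A' hA hA' hfr
  obtain ⟨⟨Ai, -, hi1, hi2⟩, hb'⟩ := h1 n A' hA'
  obtain ⟨-, hb⟩ := h1 n A hA
  have hi1' : ∀ X, Ai (A' X) = X := fun X => by
    have := congrArg (fun f => f X) hi1
    simpa using this
  have hi2' : ∀ X, A' (Ai X) = X := fun X => by
    have := congrArg (fun f => f X) hi2
    simpa using this
  obtain ⟨c, hc⟩ := scalar_of (Ai ∘ₗ A) (by
    intro z hz
    obtain ⟨h0, -, he, -⟩ := hb z hz
    obtain ⟨h0', -, he', -⟩ := hb' z hz
    refine ⟨(A (1, z)).1 * ((A' (1, z)).1)⁻¹, ?_⟩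
    generalize (A (1, z)).1 = a at *
    generalize ha' : (A' (1, z)).1 = a' at *
    have e1 : ((1 : ℂ), frac A' z) = a'⁻¹ • A' (1, z) := by
      rw [he', smul_smul, inv_mul_cancel₀ h0', one_smul]
    rw [LinearMap.comp_apply, he, hfr z hz, e1, map_smul, map_smul, hi1', smul_smul]
    ext <;> simp)
  refine ⟨c, ?_⟩
  apply LinearMap.ext
  intro X
  have h := hc X
  rw [LinearMap.comp_apply] at h
  rw [← hi2' (A X), h, map_smul, LinearMap.smul_apply]

end Pool.Agent.H789.RS.GLUE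

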